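import Pool.Agent.U398.MV.Stm3
import Pool.Agent.U946.MV2.A5

/-!
# Project MV3, package ABB

From local parts to the functions (bilinear version of package AB, helper946).
-/

set_option autoImplicit false

namespace Pool.Agent.U667.MV3

open MeasureTheory Filter Topology Set
open scoped ENNReal
open Pool.Agent.U946.MV2

/-- correlations of `s`, `w` and of `s - K (K s)`, `w - K (K w)` -/
lemma bil {s w : ℝ → ℝ} (hs : MemLp s 2 volume) (hw : MemLp w 2 volume) {κ : ℝ} (hκ : 0 < κ) :
    |(∫ t, s t * w t) - ∫ t, (s t - K (K s) t) * (w t - K (K w) t)| ≤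
      3 / 2 * (κ * (∫ t, K s t ^ 2) + (∫ t, K w t ^ 2) / κ) := by
  have hs1 := K_memLp hs
  have hs2 := K_memLp hs1.1
  have hw1 := K_memLp hw
  have hw2 := K_memLp hw1.1
  have i1 : Integrable (fun t => s t * w t) := hs.integrable_mul hw
  have i2 : Integrable (fun t => s t * K (K w) t) := hs.integrable_mul hw2.1
  have i3 : Integrable (fun t => K (K s) t * w t) := hs2.1.integrable_mul hw
  have i4 : Integrable (fun t => K (K s) t * K (K w) t) := hs2.1.integrable_mul hw2.1
  have i5 : Integrable (fun t => (s t - K (K s) t) * (w t - K (K w) t)) :=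
    (hs.sub hs2.1).integrable_mul (hw.sub hw2.1)
  have e0 : (∫ t, s t * w t) - (∫ t, (s t - K (K s) t) * (w t - K (K w) t)) =
      (∫ t, s t * K (K w) t) + (∫ t, K (K s) t * w t) - ∫ t, K (K s) t * K (K w) t := by
    have a1 : (∫ t, s t * K (K w) t) + (∫ t, K (K s) t * w t) =
        ∫ t, (s t * K (K w) t + K (K s) t * w t) := (integral_add i2 i3).symm
    have a2 : (∫ t, (s t * K (K w) t + K (K s) t * w t)) - (∫ t, K (K s) t * K (K w) t) =
        ∫ t, ((s t * K (K w) t + K (K s) t * w t) - K (K s) t * K (K w) t) :=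
      (integral_sub (i2.add i3) i4).symm
    have i6 : Integrable (fun t => (s t * K (K w) t + K (K s) t * w t) - K (K s) t * K (K w) t) :=
      (i2.add i3).sub i4
    rw [a1, a2, sub_eq_iff_eq_add, ← integral_add i6 i5]
    congr 1
    ext t
    ring
  have e1 : (∫ t, s t * K (K w) t) = ∫ t, K s t * K w t := (K_adj hs hw1.1).symm
  have e2 : (∫ t, K (K s) t * w t) = ∫ t, K s t * K w t := K_adj hs1.1 hw
  have b1 := amgm hs1.1 hw1.1 hκ
  have b2 := amgm hs2.1 hw2.1 hκ
  have b3 : κ * (∫ t, K (K s) t ^ 2) ≤ κ * ∫ t, K s t ^ 2 := by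
    have := hs2.2
    gcongr
  have b4 : (∫ t, K (K w) t ^ 2) / κ ≤ (∫ t, K w t ^ 2) / κ := by
    have := hw2.2
    gcongr
  rw [e0, e1, e2]
  have := abs_le.1 b1
  have := abs_le.1 b2
  rw [abs_le]
  constructor <;> linarith

/-- correlations of close pairs of functions -/
lemma close {a A b B : ℝ → ℝ} (ha : MemLp a 2 volume) (hA : MemLp A 2 volume)
    (hb : MemLp b 2 volume) (hB : MemLp B 2 volume) {M : ℝ} (hM : 0 < M) :
    |(∫ t, a t * b t) - ∫ t, A t * B t| ≤
      (M * (∫ t, (a t - A t) ^ 2) + (∫ t, b t ^ 2) / M) / 2 +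
      (M * (∫ t, (b t - B t) ^ 2) + (∫ t, A t ^ 2) / M) / 2 := by
  have hd : MemLp (fun t => a t - A t) 2 volume := ha.sub hA
  have he : MemLp (fun t => b t - B t) 2 volume := hb.sub hB
  have e0 : (∫ t, a t * b t) - (∫ t, A t * B t) =
      (∫ t, (a t - A t) * b t) + ∫ t, (b t - B t) * A t := by
    have i1 : Integrable (fun t => a t * b t) := ha.integrable_mul hb
    have i2 : Integrable (fun t => A t * B t) := hA.integrable_mul hB
    have i3 : Integrable (fun t => (a t - A t) * b t) := hd.integrable_mul hb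
    have i4 : Integrable (fun t => (b t - B t) * A t) := he.integrable_mul hA
    rw [← integral_sub i1 i2, ← integral_add i3 i4]
    congr 1
    ext t
    ring
  rw [e0]
  exact (abs_add_le _ _).trans (add_le_add (amgm hd hb hM) (amgm he hA hM))

/-- `K` preserves bounds -/
lemma K_bd {f : ℝ → ℝ} (hf : MemLp f 2 volume) {c : ℝ} (hc : 0 ≤ c) (h : ∀ t, |f t| ≤ c) (t : ℝ) :
    |K f t| ≤ c := by
  have h1 := K_sq_bound hf (t := t) (B := c ^ 2) (fun y _ _ => by
    rw [← sq_abs]
    exact pow_le_pow_left₀ (abs_nonneg _) (h y) 2)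
  exact abs_le_of_sq_le_sq h1 hc

/-- the box average of the truncated bounded function -/
lemma E1 {T e : ℝ} (hT : 100 ≤ T) {g : ℝ → ℝ} (hg : MemLp g 2 volume)
    (he : ∀ t, |K ((Icc T (2 * T)).indicator g) t| ≤ e) :
    (∫ t, K ((Icc T (2 * T)).indicator g) t ^ 2) ≤ (∫ t in T..(2 * T), K g t ^ 2) + 4 * e ^ 2 := by
  set s := (Icc T (2 * T)).indicator g with hs
  have hsm : MemLp s 2 volume := hg.indicator measurableSet_Icc
  have hF := K_memLp hsm
  have hKg := K_memLp hg
  have he2 : ∀ t, K s t ^ 2 ≤ e ^ 2 := fun t => by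
    rw [← sq_abs]
    exact pow_le_pow_left₀ (abs_nonneg _) (he t) 2
  have hle : ∀ t, K s t ^ 2 ≤ (Icc T (2 * T)).indicator (fun t => K g t ^ 2) t +
      (Icc (T - 1) (T + 1)).indicator (fun _ => e ^ 2) t +
      (Icc (2 * T - 1) (2 * T + 1)).indicator (fun _ => e ^ 2) t := by
    intro t
    have n1 : 0 ≤ (Icc T (2 * T)).indicator (fun t => K g t ^ 2) t :=
      indicator_nonneg (fun _ _ => sq_nonneg _) _
    have n2 : 0 ≤ (Icc (T - 1) (T + 1)).indicator (fun _ => e ^ 2) t :=
      indicator_nonneg (fun _ _ => by positivity) _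
    have n3 : 0 ≤ (Icc (2 * T - 1) (2 * T + 1)).indicator (fun _ => e ^ 2) t :=
      indicator_nonneg (fun _ _ => by positivity) _
    rcases lt_or_ge t (T - 1 / 2) with h1 | h1
    · have : K s t = 0 := K_zero fun y _ hy => by
        rw [hs, indicator_of_notMem]
        exact fun h => by linarith [h.1]
      rw [this]
      nlinarith
    rcases le_or_gt t (T + 1 / 2) with h2 | h2
    · have := he2 t
      rw [indicator_of_mem (show t ∈ Icc (T - 1) (T + 1) from ⟨by linarith, by linarith⟩)]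
      linarith
    rcases lt_or_ge t (2 * T - 1 / 2) with h3 | h3
    · have : K s t = K g t := K_congr fun y h4 h5 => by
        rw [hs, indicator_of_mem]
        exact ⟨by linarith, by linarith⟩
      rw [this, indicator_of_mem (show t ∈ Icc T (2 * T) from ⟨by linarith, by linarith⟩)]
      linarith
    rcases le_or_gt t (2 * T + 1 / 2) with h4 | h4
    · have := he2 t
      rw [indicator_of_mem (show t ∈ Icc (2 * T - 1) (2 * T + 1) from ⟨by linarith, by linarith⟩)]
      linarith
    · have : K s t = 0 := K_zero fun y hy _ => by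
        rw [hs, indicator_of_notMem]
        exact fun h => by linarith [h.2]
      rw [this]
      nlinarith
  have i1 : Integrable ((Icc T (2 * T)).indicator (fun t => K g t ^ 2)) :=
    hKg.1.integrable_sq.indicator measurableSet_Icc
  have i2 : Integrable ((Icc (T - 1) (T + 1)).indicator (fun _ => e ^ 2)) :=
    (integrable_indicator_iff measurableSet_Icc).2 (integrableOn_const (by simp) enorm_ne_top)
  have i3 : Integrable ((Icc (2 * T - 1) (2 * T + 1)).indicator (fun _ => e ^ 2)) :=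
    (integrable_indicator_iff measurableSet_Icc).2 (integrableOn_const (by simp) enorm_ne_top)
  have h1 := integral_mono hF.1.integrable_sq ((i1.add i2).add i3) hle
  have h2 : (∫ t, ((Icc T (2 * T)).indicator (fun t => K g t ^ 2) t +
      (Icc (T - 1) (T + 1)).indicator (fun _ => e ^ 2) t +
      (Icc (2 * T - 1) (2 * T + 1)).indicator (fun _ => e ^ 2) t)) =
      (∫ t in T..(2 * T), K g t ^ 2) + 2 * e ^ 2 + 2 * e ^ 2 := by
    have e1 := integral_add (i1.add i2) i3
    have e2 := integral_add i1 i2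
    simp only [Pi.add_apply] at e1
    rw [e1, e2, integral_indicator measurableSet_Icc, integral_indicator measurableSet_Icc,
      integral_indicator measurableSet_Icc, setIntegral_const, setIntegral_const,
      intervalIntegral.integral_of_le (by linarith), integral_Icc_eq_integral_Ioc, Measure.real,
      Measure.real, Real.volume_Icc, Real.volume_Icc, ENNReal.toReal_ofReal (by linarith),
      ENNReal.toReal_ofReal (by linarith)]
    simp only [smul_eq_mul]
    ring
  have h3 : (∫ t, K s t ^ 2) ≤ (∫ t in T..(2 * T), K g t ^ 2) + 2 * e ^ 2 + 2 * e ^ 2 := by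
    rw [← h2]
    exact h1
  linarith

/-- the distance between `w - K (K w)` and `B` -/
lemma E2 {C1 T e : ℝ} (hC1 : 1 ≤ C1) (he0 : 0 ≤ e)
    {g B : ℝ → ℝ} (hg : MemLp g 2 volume) (hg1 : Integrable g) (hge : ∀ t, |g t| ≤ e)
    (hB : ∀ t : ℝ, T + 3 ≤ t → t ≤ 2 * T - 3 →
      B t = g t - (∫ y in (-1 : ℝ)..1, (1 - |y|) * g (t - y)))
    (hBm : MemLp B 2 volume) (hBb : ∀ t, |B t| ≤ C1 * e)
    (hB0 : ∀ t, t < T - 2 ∨ 2 * T + 2 < t → B t = 0) :
    (∫ t, ((Icc T (2 * T)).indicator g t - K (K ((Icc T (2 * T)).indicator g)) t - B t) ^ 2) ≤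
      108 * C1 ^ 2 * e ^ 2 := by
  set s := (Icc T (2 * T)).indicator g with hs
  have hsm : MemLp s 2 volume := hg.indicator measurableSet_Icc
  have hs1 : Integrable s := hg1.indicator measurableSet_Icc
  have hse : ∀ t, |s t| ≤ e := by
    intro t
    by_cases ht : t ∈ Icc T (2 * T)
    · rw [hs, indicator_of_mem ht]
      exact hge t
    · rw [hs, indicator_of_notMem ht, abs_zero]
      exact he0
  have hF := K_memLp hsm
  have hb := K_memLp hF.1
  have hK1 := K_bd hsm he0 hse
  have hK2 := K_bd hF.1 he0 hK1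
  have hd : MemLp (fun t => s t - K (K s) t - B t) 2 volume := (hsm.sub hb.1).sub hBm
  set c : ℝ := (3 * C1 * e) ^ 2 with hc
  have hc0 : 0 ≤ c := by positivity
  have hedge : ∀ t : ℝ, (s t - K (K s) t - B t) ^ 2 ≤ c := by
    intro t
    rw [← sq_abs, hc]
    refine pow_le_pow_left₀ (abs_nonneg _) ?_ 2
    have k1 := abs_le.1 (hse t)
    have k2 := abs_le.1 (hK2 t)
    have k3 := abs_le.1 (hBb t)
    have k4 : e ≤ C1 * e := by nlinarith
    rw [abs_le]
    constructor <;> nlinarith
  have hle : ∀ t : ℝ, (s t - K (K s) t - B t) ^ 2 ≤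
      (Icc (T - 3) (T + 3)).indicator (fun _ => c) t +
      (Icc (2 * T - 3) (2 * T + 3)).indicator (fun _ => c) t := by
    intro t
    have n2 : 0 ≤ (Icc (T - 3) (T + 3)).indicator (fun _ => c) t :=
      indicator_nonneg (fun _ _ => hc0) _
    have n3 : 0 ≤ (Icc (2 * T - 3) (2 * T + 3)).indicator (fun _ => c) t :=
      indicator_nonneg (fun _ _ => hc0) _
    rcases lt_or_ge t (T - 3) with h1 | h1
    · have k1 : K (K s) t = 0 := K_zero fun y _ hy => K_zero fun z _ hz => by
        rw [hs, indicator_of_notMem]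
        exact fun h => by linarith [h.1]
      have k2 : s t = 0 := by
        rw [hs, indicator_of_notMem]
        exact fun h => by linarith [h.1]
      rw [k1, k2, hB0 t (Or.inl (by linarith))]
      have : ((0 : ℝ) - 0 - 0) ^ 2 = 0 := by norm_num
      rw [this]
      linarith
    rcases le_or_gt t (T + 3) with h2 | h2
    · have := hedge t
      rw [indicator_of_mem (show t ∈ Icc (T - 3) (T + 3) from ⟨by linarith, by linarith⟩)]
      linarith
    rcases lt_or_ge t (2 * T - 3) with h3 | h3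
    · have k1 : s t = g t := by
        rw [hs, indicator_of_mem]
        exact ⟨by linarith, by linarith⟩
      have k2 : K (K s) t = ∫ y in (-1 : ℝ)..1, (1 - |y|) * g (t - y) := by
        rw [hat_eq hs1]
        apply intervalIntegral.integral_congr
        intro y hy
        rw [uIcc_of_le (by norm_num)] at hy
        change (1 - |y|) * s (t - y) = (1 - |y|) * g (t - y)
        rw [hs, indicator_of_mem]
        exact ⟨by linarith [hy.2], by linarith [hy.1]⟩
      have k3 := hB t (by linarith) h3.le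
      rw [k1, k2, k3]
      have : ((g t - (∫ y in (-1 : ℝ)..1, (1 - |y|) * g (t - y))) -
        (g t - ∫ y in (-1 : ℝ)..1, (1 - |y|) * g (t - y))) ^ 2 = 0 := by rw [sub_self]; norm_num
      rw [this]
      linarith
    rcases le_or_gt t (2 * T + 3) with h4 | h4
    · have := hedge t
      rw [indicator_of_mem (show t ∈ Icc (2 * T - 3) (2 * T + 3) from ⟨by linarith, by linarith⟩)]
      linarith
    · have k1 : K (K s) t = 0 := K_zero fun y hy _ => K_zero fun z hz _ => by
        rw [hs, indicator_of_notMem]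
        exact fun h => by linarith [h.2]
      have k2 : s t = 0 := by
        rw [hs, indicator_of_notMem]
        exact fun h => by linarith [h.2]
      rw [k1, k2, hB0 t (Or.inr (by linarith))]
      have : ((0 : ℝ) - 0 - 0) ^ 2 = 0 := by norm_num
      rw [this]
      linarith
  have i2 : Integrable ((Icc (T - 3) (T + 3)).indicator (fun _ => c)) :=
    (integrable_indicator_iff measurableSet_Icc).2 (integrableOn_const (by simp) enorm_ne_top)
  have i3 : Integrable ((Icc (2 * T - 3) (2 * T + 3)).indicator (fun _ => c)) :=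
    (integrable_indicator_iff measurableSet_Icc).2 (integrableOn_const (by simp) enorm_ne_top)
  have h1 := integral_mono hd.integrable_sq (i2.add i3) hle
  rw [integral_add' i2 i3, integral_indicator measurableSet_Icc, integral_indicator measurableSet_Icc,
    setIntegral_const, setIntegral_const, Measure.real, Measure.real, Real.volume_Icc,
    Real.volume_Icc, ENNReal.toReal_ofReal (by linarith), ENNReal.toReal_ofReal (by linarith)] at h1
  simp only [smul_eq_mul] at h1
  refine h1.trans (le_of_eq ?_)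
  rw [hc]
  ring

lemma sq_int_le {A : ℝ → ℝ} {a b e : ℝ} (hab : a ≤ b) (hA : MemLp A 2 volume) (he : ∀ t, |A t| ≤ e)
    (h0 : ∀ t, t ∉ Icc a b → A t = 0) : (∫ t, A t ^ 2) ≤ (b - a) * e ^ 2 := by
  have h1 : ∀ t, A t ^ 2 ≤ (Icc a b).indicator (fun _ => e ^ 2) t := by
    intro t
    by_cases ht : t ∈ Icc a b
    · rw [indicator_of_mem ht, ← sq_abs]
      exact pow_le_pow_left₀ (abs_nonneg _) (he t) 2
    · rw [indicator_of_notMem ht, h0 t ht]
      norm_num
  have i1 : Integrable ((Icc a b).indicator (fun _ => e ^ 2)) :=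
    (integrable_indicator_iff measurableSet_Icc).2 (integrableOn_const (by simp) enorm_ne_top)
  have h2 := integral_mono hA.integrable_sq i1 h1
  rw [integral_indicator measurableSet_Icc, setIntegral_const, Measure.real, Real.volume_Icc,
    ENNReal.toReal_ofReal (by linarith)] at h2
  exact h2

theorem core {C1 T r κ : ℝ} (hC1 : 1 ≤ C1) (hr : 2 ≤ r) (hT : T = r ^ 24) (hκ : 1 ≤ κ)
    {g f A B : ℝ → ℝ} (hg : MemLp g 2 volume) (hg1 : Integrable g)
    (hg4 : Integrable (fun t => g t ^ 4)) (hQ : (∫ t, g t ^ 4) ≤ C1 * T)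
    (hG : (∫ t in T..(2 * T), K g t ^ 2) ≤ C1 * T)
    (hA : ∀ᵐ t : ℝ, T + 3 ≤ t → t ≤ 2 * T - 3 →
      |g t - (∫ y in (-1 : ℝ)..1, (1 - |y|) * g (t - y)) - A t| ≤ C1 / T)
    (hAm : Measurable A) (hAb : ∀ t, |A t| ≤ C1 * r ^ 3)
    (hA0 : ∀ t, t < T - 2 ∨ 2 * T + 2 < t → A t = 0)
    (hf : MemLp f 2 volume) (hf1 : Integrable f) (hfe : ∀ t, |f t| ≤ r ^ 3)
    (hF : (∫ t in T..(2 * T), K f t ^ 2) ≤ C1 * κ ^ 2 * T)
    (hB : ∀ t : ℝ, T + 3 ≤ t → t ≤ 2 * T - 3 →
      B t = f t - (∫ y in (-1 : ℝ)..1, (1 - |y|) * f (t - y)))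
    (hBm : Measurable B) (hBb : ∀ t, |B t| ≤ C1 * r ^ 3)
    (hB0 : ∀ t, t < T - 2 ∨ 2 * T + 2 < t → B t = 0)
    (hAB : |∫ t, A t * B t| ≤ C1 * κ * T) :
    |∫ t in T..(2 * T), g t * f t| ≤ 200 * C1 ^ 2 * κ * T := by
  have hr1 : 1 ≤ r := by linarith
  have hr0 : 0 < r := by linarith
  have hp : ∀ m n : ℕ, m ≤ n → r ^ m ≤ r ^ n := fun m n h => pow_le_pow_right₀ hr1 h
  have hT100 : 100 ≤ T := by
    have h1 : (2 : ℝ) ^ 24 ≤ r ^ 24 := pow_le_pow_left₀ (by norm_num) hr 24
    rw [hT]
    norm_num at h1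
    linarith
  have hT0 : 0 < T := by linarith
  have hL3 : (r ^ 8) ^ 3 ≤ T := by rw [hT, ← pow_mul]
  have hL2 : 2 ≤ r ^ 8 := hr.trans (by simpa using hp 1 8 (by norm_num))
  have hr38 : r ^ 3 ≤ r ^ 8 := hp 3 8 (by norm_num)
  have hAp : MemLp A 2 volume := memLp_of_bdd hAm hAb hA0
  have hBp : MemLp B 2 volume := memLp_of_bdd hBm hBb hB0
  have hC0 : 0 < C1 := by linarith
  have hCT : 0 < C1 * T := by positivity
  have d1 := D1 hC1 (le_refl (2 : ℝ)) hT100 (by norm_num; linarith) hg hg4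
    (hQ.trans (by nlinarith)) hG
  have d2 := D2 hC1 hL2 hT100 hL3 hg hg1 hg4 (hQ.trans (by nlinarith)) hA hAp
    (fun t => (hAb t).trans (by gcongr)) hA0
  set s := (Icc T (2 * T)).indicator g with hs
  set w := (Icc T (2 * T)).indicator f with hw
  have hsm : MemLp s 2 volume := hg.indicator measurableSet_Icc
  have hwm : MemLp w 2 volume := hf.indicator measurableSet_Icc
  have hr30 : 0 ≤ r ^ 3 := by positivity
  have hwe : ∀ t, |w t| ≤ r ^ 3 := by
    intro t
    by_cases ht : t ∈ Icc T (2 * T)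
    · rw [hw, indicator_of_mem ht]
      exact hfe t
    · rw [hw, indicator_of_notMem ht, abs_zero]
      exact hr30
  have hK1 := K_bd hwm hr30 hwe
  have e1 := E1 hT100 hf hK1
  have e2 := E2 hC1 hr30 hf hf1 hfe hB hBp hBb hB0
  rw [← hw] at e1 e2
  have hs1 := K_memLp hsm
  have hs2 := K_memLp hs1.1
  have hw1 := K_memLp hwm
  have hw2 := K_memLp hw1.1
  have ham : MemLp (fun t => s t - K (K s) t) 2 volume := hsm.sub hs2.1
  have hbm : MemLp (fun t => w t - K (K w) t) 2 volume := hwm.sub hw2.1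
  -- norms
  have nw : (∫ t, w t ^ 2) ≤ T * r ^ 6 := by
    refine (sq_int_le (a := T) (b := 2 * T) (by linarith) hwm hwe (fun t ht => by
      rw [hw, indicator_of_notMem ht])).trans (le_of_eq ?_)
    ring
  have nb : (∫ t, (w t - K (K w) t) ^ 2) ≤ 4 * (T * r ^ 6) := by
    have h1 : (∫ t, (w t - K (K w) t) ^ 2) ≤ ∫ t, (2 * w t ^ 2 + 2 * K (K w) t ^ 2) := by
      apply integral_mono hbm.integrable_sq
        ((hwm.integrable_sq.const_mul 2).add (hw2.1.integrable_sq.const_mul 2))
      intro t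
      change (w t - K (K w) t) ^ 2 ≤ 2 * w t ^ 2 + 2 * K (K w) t ^ 2
      nlinarith [sq_nonneg (w t + K (K w) t)]
    rw [integral_add (hwm.integrable_sq.const_mul 2) (hw2.1.integrable_sq.const_mul 2),
      integral_const_mul, integral_const_mul] at h1
    have h2 := hw2.2
    have h3 := hw1.2
    linarith
  have nA : (∫ t, A t ^ 2) ≤ 2 * C1 ^ 2 * (T * r ^ 6) := by
    refine (sq_int_le (a := T - 2) (b := 2 * T + 2) (by linarith) hAp hAb (fun t ht => by
      apply hA0
      by_contra h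
      push Not at h
      exact ht ⟨h.1, h.2⟩)).trans ?_
    have h1 : (2 * T + 2 - (T - 2)) * (C1 * r ^ 3) ^ 2 = (T + 4) * (C1 ^ 2 * r ^ 6) := by ring
    rw [h1]
    have h2 : 2 * C1 ^ 2 * (T * r ^ 6) = (2 * T) * (C1 ^ 2 * r ^ 6) := by ring
    rw [h2]
    gcongr
    linarith
  have nK : (∫ t, K w t ^ 2) ≤ 5 * (C1 * κ ^ 2 * T) := by
    have h1 : (r ^ 3) ^ 2 ≤ T := by
      rw [hT, ← pow_mul]
      exact hp 6 24 (by norm_num)
    have h2 : T ≤ C1 * κ ^ 2 * T := by
      have : 1 ≤ C1 * κ ^ 2 := by nlinarith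
      nlinarith
    linarith
  -- the integral
  have e0 : (∫ t in T..(2 * T), g t * f t) = ∫ t, s t * w t := by
    rw [intervalIntegral.integral_of_le (by linarith), ← integral_Icc_eq_integral_Ioc,
      ← integral_indicator measurableSet_Icc]
    congr 1
    ext t
    by_cases ht : t ∈ Icc T (2 * T)
    · rw [indicator_of_mem ht, hs, hw, indicator_of_mem ht, indicator_of_mem ht]
    · rw [indicator_of_notMem ht, hs, hw, indicator_of_notMem ht, zero_mul]
  have hκ0 : 0 < κ := by linarith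
  have b1 := bil hsm hwm hκ0
  have b2 := close ham hAp hbm hBp (M := r ^ 6) (by positivity)
  have c1 : κ * (∫ t, K s t ^ 2) ≤ 5 * (C1 * κ * T) := by
    have : κ * (∫ t, K s t ^ 2) ≤ κ * (5 * (C1 * T)) := by gcongr
    linarith
  have c2 : (∫ t, K w t ^ 2) / κ ≤ 5 * (C1 * κ * T) := by
    rw [div_le_iff₀ hκ0]
    refine nK.trans (le_of_eq ?_)
    ring
  have hN1 : 0 ≤ ∫ t, (s t - K (K s) t - A t) ^ 2 := integral_nonneg fun t => sq_nonneg _
  have c3 : r ^ 6 * (∫ t, (s t - K (K s) t - A t) ^ 2) ≤ 230 * C1 ^ 2 * T := by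
    refine le_trans ?_ d2
    exact mul_le_mul_of_nonneg_right (hp 6 8 (by norm_num)) hN1
  have c4 : (∫ t, (w t - K (K w) t) ^ 2) / r ^ 6 ≤ 4 * T := by
    rw [div_le_iff₀ (by positivity)]
    linarith
  have c5 : r ^ 6 * (∫ t, (w t - K (K w) t - B t) ^ 2) ≤ 108 * C1 ^ 2 * T := by
    have h1 : r ^ 6 * (∫ t, (w t - K (K w) t - B t) ^ 2) ≤ r ^ 6 * (108 * C1 ^ 2 * (r ^ 3) ^ 2) := by
      gcongr
    refine h1.trans ?_
    have h2 : r ^ 6 * (108 * C1 ^ 2 * (r ^ 3) ^ 2) = 108 * C1 ^ 2 * r ^ 12 := by ring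
    rw [h2, hT]
    have := hp 12 24 (by norm_num)
    exact mul_le_mul_of_nonneg_left this (by positivity)
  have c6 : (∫ t, A t ^ 2) / r ^ 6 ≤ 2 * C1 ^ 2 * T := by
    rw [div_le_iff₀ (by positivity)]
    linarith
  have k1 : C1 * κ * T ≤ C1 ^ 2 * κ * T := by
    have : C1 ≤ C1 ^ 2 := by nlinarith
    gcongr
  have k2 : C1 ^ 2 * T ≤ C1 ^ 2 * κ * T := by
    have : C1 ^ 2 * 1 * T ≤ C1 ^ 2 * κ * T := by gcongr
    linarith
  have k3 : T ≤ C1 ^ 2 * T := by
    have : 1 ≤ C1 ^ 2 := by nlinarith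
    nlinarith
  rw [e0]
  have := abs_le.1 b1
  have := abs_le.1 b2
  have := abs_le.1 hAB
  rw [abs_le]
  constructor <;> nlinarith

theorem t_ABB : Pool.Agent.U398.MV.S_ABB := by
  intro C1 hC1
  refine ⟨200 * (3 * C1) ^ 2, 2 ^ 24, by positivity, ?_⟩
  intro T hT κ hκ σ A G B hσ hσ4 hQ hG hA hAm hAb hA0 hGc hGb hGG hB hBm hBb hB0 hAB
  have hT0 : 0 < T := lt_of_lt_of_le (by norm_num) hT
  have h100 : 100 ≤ T := le_trans (by norm_num) hT
  set r : ℝ := T ^ (1 / 24 : ℝ) with hr
  have hr24 : T = r ^ 24 := by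
    rw [hr, ← Real.rpow_natCast, ← Real.rpow_mul hT0.le]
    norm_num
  have hr3 : T ^ (1 / 8 : ℝ) = r ^ 3 := by
    rw [hr, ← Real.rpow_natCast, ← Real.rpow_mul hT0.le]
    norm_num
  have hr2 : 2 ≤ r := by
    have h1 : ((2 : ℝ) ^ 24) ^ (1 / 24 : ℝ) ≤ T ^ (1 / 24 : ℝ) :=
      Real.rpow_le_rpow (by positivity) hT (by norm_num)
    rw [← Real.rpow_natCast, ← Real.rpow_mul (by norm_num)] at h1
    norm_num at h1
    rw [hr]
    norm_num
    exact h1
  rw [hr3] at hAb hGb hBb
  set g := (Icc (T / 2) (3 * T)).indicator σ with hg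
  set f := (Icc (T / 2) (3 * T)).indicator G with hf
  have hmem : ∀ t : ℝ, T - 1 ≤ t → t ≤ 3 * T → g t = σ t := fun t h1 h2 => by
    rw [hg, indicator_of_mem]
    exact ⟨by linarith, h2⟩
  have hmef : ∀ t : ℝ, T - 1 ≤ t → t ≤ 3 * T → f t = G t := fun t h1 h2 => by
    rw [hf, indicator_of_mem]
    exact ⟨by linarith, h2⟩
  have hσ2 : IntegrableOn (fun t => σ t ^ 2) (Icc (T / 2) (3 * T)) := by
    have h1 : IntegrableOn (fun t => (σ t ^ 4 + 1) / 2) (Icc (T / 2) (3 * T)) :=
      (hσ4.add (integrableOn_const (by simp) enorm_ne_top)).div_const 2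
    refine Integrable.mono h1 (hσ.restrict.pow 2) (ae_of_all _ fun t => ?_)
    rw [Real.norm_of_nonneg (sq_nonneg _), Real.norm_of_nonneg (by positivity)]
    nlinarith [sq_nonneg (σ t ^ 2 - 1)]
  have hσm : MemLp σ 2 (volume.restrict (Icc (T / 2) (3 * T))) :=
    (memLp_two_iff_integrable_sq hσ.restrict).2 hσ2
  have hgm : MemLp g 2 volume := (memLp_indicator_iff_restrict measurableSet_Icc).2 hσm
  have hg1 : Integrable g :=
    (integrable_indicator_iff measurableSet_Icc).2 (hσm.integrable (by norm_num))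
  have hpow : (fun t => g t ^ 4) = (Icc (T / 2) (3 * T)).indicator (fun t => σ t ^ 4) := by
    ext t
    by_cases ht : t ∈ Icc (T / 2) (3 * T)
    · rw [hg, indicator_of_mem ht, indicator_of_mem ht]
    · rw [hg, indicator_of_notMem ht, indicator_of_notMem ht]
      norm_num
  have hg4 : Integrable (fun t => g t ^ 4) := by
    rw [hpow]
    exact (integrable_indicator_iff measurableSet_Icc).2 hσ4
  have hQ' : (∫ t, g t ^ 4) ≤ C1 * T := by
    rw [hpow, integral_indicator measurableSet_Icc, integral_Icc_eq_integral_Ioc,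
      ← intervalIntegral.integral_of_le (by linarith)]
    exact hQ
  have hG' : (∫ t in T..(2 * T), K g t ^ 2) ≤ C1 * T := by
    refine le_of_eq_of_le ?_ hG
    apply intervalIntegral.integral_congr
    intro t ht
    rw [uIcc_of_le (by linarith)] at ht
    change K g t ^ 2 = K σ t ^ 2
    rw [K_congr (g := σ)]
    intro y h1 h2
    exact hmem y (by linarith [ht.1]) (by linarith [ht.2])
  have hA' : ∀ᵐ t : ℝ, T + 3 ≤ t → t ≤ 2 * T - 3 →
      |g t - (∫ y in (-1 : ℝ)..1, (1 - |y|) * g (t - y)) - A t| ≤ C1 / T := by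
    filter_upwards [hA] with t h1 h2 h3
    have e1 : (∫ y in (-1 : ℝ)..1, (1 - |y|) * g (t - y)) =
        ∫ y in (-1 : ℝ)..1, (1 - |y|) * σ (t - y) := by
      apply intervalIntegral.integral_congr
      intro y hy
      rw [uIcc_of_le (by norm_num)] at hy
      change (1 - |y|) * g (t - y) = (1 - |y|) * σ (t - y)
      rw [hmem _ (by linarith [hy.2]) (by linarith [hy.1])]
    rw [e1, hmem t (by linarith) (by linarith)]
    exact h1 h2 h3
  have hfe : ∀ t, |f t| ≤ r ^ 3 := by
    intro t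
    by_cases ht : t ∈ Icc (T / 2) (3 * T)
    · rw [hf, indicator_of_mem ht]
      exact hGb t
    · rw [hf, indicator_of_notMem ht, abs_zero]
      positivity
  have hfm : MemLp f 2 volume := memLp_of_bdd (a := T / 2) (b := 3 * T)
    (hGc.measurable.indicator measurableSet_Icc) hfe (fun t ht => by
      rw [hf, indicator_of_notMem]
      rintro ⟨h1, h2⟩
      rcases ht with h | h <;> linarith)
  have hf1 : Integrable f :=
    (integrable_indicator_iff measurableSet_Icc).2 hGc.continuousOn.integrableOn_Icc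
  have hF' : (∫ t in T..(2 * T), K f t ^ 2) ≤ C1 * κ ^ 2 * T := by
    refine le_of_eq_of_le ?_ hGG
    apply intervalIntegral.integral_congr
    intro t ht
    rw [uIcc_of_le (by linarith)] at ht
    change K f t ^ 2 = K G t ^ 2
    rw [K_congr (g := G)]
    intro y h1 h2
    exact hmef y (by linarith [ht.1]) (by linarith [ht.2])
  have hB' : ∀ t : ℝ, T + 3 ≤ t → t ≤ 2 * T - 3 →
      B t = f t - (∫ y in (-1 : ℝ)..1, (1 - |y|) * f (t - y)) := by
    intro t h2 h3
    have e1 : (∫ y in (-1 : ℝ)..1, (1 - |y|) * f (t - y)) =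
        ∫ y in (-1 : ℝ)..1, (1 - |y|) * G (t - y) := by
      apply intervalIntegral.integral_congr
      intro y hy
      rw [uIcc_of_le (by norm_num)] at hy
      change (1 - |y|) * f (t - y) = (1 - |y|) * G (t - y)
      rw [hmef _ (by linarith [hy.2]) (by linarith [hy.1])]
    rw [e1, hmef t (by linarith) (by linarith)]
    exact hB t h2 h3
  have hfin := core hC1 hr2 hr24 hκ hgm hg1 hg4 hQ' hG' hA' hAm hAb hA0 hfm hf1 hfe hF' hB' hBm
    hBb hB0 hAB
  have e2 : (∫ t in T..(2 * T), σ t * G t) = ∫ t in T..(2 * T), g t * f t := by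
    apply intervalIntegral.integral_congr
    intro t ht
    rw [uIcc_of_le (by linarith)] at ht
    change σ t * G t = g t * f t
    rw [hmem t (by linarith [ht.1]) (by linarith [ht.2]),
      hmef t (by linarith [ht.1]) (by linarith [ht.2])]
  rw [e2]
  refine hfin.trans ?_
  have h1 : 200 * C1 ^ 2 ≤ 200 * (3 * C1) ^ 2 := by nlinarith
  gcongr

end Pool.Agent.U667.MV3
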